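import Pool.Agent.Lib_helper61.Rat.Window

/-!
The recurrence `x_n = x_{n-4} / x_{n-1}` has an unbounded positive solution (MP_88c4fb_an).
-/

set_option autoImplicit false

namespace Pool.Agent.RatRec

/-- The exponents, without their signs. -/
def uexp : ℕ → ℕ
  | 0 => 1
  | 1 => 1
  | 2 => 1
  | 3 => 1
  | n + 4 => uexp n + uexp (n + 3)

theorem uexp_pos (n : ℕ) : 1 ≤ uexp n := by
  induction n using Nat.strong_induction_on with
  | _ n ih =>
    match n, ih with
    | 0, _ => exact le_rfl
    | 1, _ => exact le_rfl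
    | 2, _ => exact le_rfl
    | 3, _ => exact le_rfl
    | n + 4, ih =>
      have h1 := ih n (by omega)
      rw [uexp]
      omega

theorem le_uexp (n : ℕ) : n ≤ uexp (n + 3) := by
  induction n with
  | zero => exact Nat.zero_le _
  | succ n ih =>
    have h1 := uexp_pos n
    have h2 : uexp (n + 1 + 3) = uexp n + uexp (n + 3) := by
      rw [show n + 1 + 3 = n + 4 by omega, uexp]
    omega

/-- The case `(16, 2)`. -/
theorem unb_16_2 : ¬ BoundedOnly (fs 16) (fs 2) := by
  intro hB
  set b : Fin 5 → ℝ := fun i => if i ∈ fs 16 then 1 else 0 with hb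
  set c : Fin 5 → ℝ := fun i => if i ∈ fs 2 then 1 else 0 with hc
  set x : ℕ → ℝ := fun n => (2 : ℝ) ^ ((-1 : ℤ) ^ n * (uexp n : ℤ)) with hx
  have hb' : SupportedOn b (fs 16) := ⟨fun i hi => by simp [hb, hi], fun i hi => by simp [hb, hi]⟩
  have hc' : SupportedOn c (fs 2) := ⟨fun i hi => by simp [hc, hi], fun i hi => by simp [hc, hi]⟩
  have hpos : ∀ n, 0 < x n := fun n => by simp only [hx]; positivity
  have hnum : ∀ n, lin b x n = x n := by
    intro n
    have a0 : b 0 = 0 := if_neg (by decide)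
    have a1 : b 1 = 0 := if_neg (by decide)
    have a2 : b 2 = 0 := if_neg (by decide)
    have a3 : b 3 = 0 := if_neg (by decide)
    have a4 : b 4 = 1 := if_pos (by decide)
    simp only [lin, a0, a1, a2, a3, a4]
    ring
  have hden : ∀ n, lin c x n = x (n + 3) := by
    intro n
    have a0 : c 0 = 0 := if_neg (by decide)
    have a1 : c 1 = 1 := if_pos (by decide)
    have a2 : c 2 = 0 := if_neg (by decide)
    have a3 : c 3 = 0 := if_neg (by decide)
    have a4 : c 4 = 0 := if_neg (by decide)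
    simp only [lin, a0, a1, a2, a3, a4]
    ring
  have hsol : IsSolution b c x := by
    refine ⟨fun n _ => (hpos n).le, fun n => ?_, fun n => ?_⟩
    · rw [hden]
      exact hpos _
    · rw [hnum, hden]
      simp only [hx]
      rw [← zpow_sub₀ (by norm_num : (2 : ℝ) ≠ 0)]
      congr 1
      rw [show uexp (n + 4) = uexp n + uexp (n + 3) from rfl, pow_add, pow_add]
      push_cast
      ring
  obtain ⟨M, hM⟩ := hB _ _ hb' hc' x hsol
  obtain ⟨k, hk⟩ := pow_unbounded_of_one_lt M (show (1 : ℝ) < 2 by norm_num)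
  have h1 := hM (2 * k + 4)
  have h2 : x (2 * k + 4) = (2 : ℝ) ^ uexp (2 * k + 4) := by
    simp only [hx]
    rw [show 2 * k + 4 = 2 * (k + 2) by ring, pow_mul]
    simp
  have h3 : k ≤ uexp (2 * k + 4) := by
    have := le_uexp (2 * k + 1)
    rw [show 2 * k + 1 + 3 = 2 * k + 4 by ring] at this
    omega
  have h4 : (2 : ℝ) ^ k ≤ 2 ^ uexp (2 * k + 4) := pow_le_pow_right₀ (by norm_num) h3
  rw [h2] at h1
  linarith

end Pool.Agent.RatRec
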