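import Pool.Agent.Lib_helper61.Rat.Defs

/-!
Rational recurrences of arbitrary order `k`: the definitions of problem MP_88c4fb_an, and the
comparison of the orders `4` and `3` with the definitions for the order `4`.
-/

set_option autoImplicit false

namespace Pool.Agent.RatRecK

/-- `c 0 + c 1 x_{n-1} + ... + c k x_{n-k}`, written at the time `n + k` (the sequence starts with
the `k` initial values `x 0, …, x (k - 1)`; the coefficient with the index `j + 1` multiplies
`x (n + k - (j + 1))`). -/
def lin {k : ℕ} (c : Fin (k + 1) → ℝ) (x : ℕ → ℝ) (n : ℕ) : ℝ :=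
  c 0 + ∑ j : Fin k, c j.succ * x (n + k - ((j : ℕ) + 1))

/-- `x` is a solution of the recurrence `(E_k)` with numerator coefficients `b` (that is
`α, β_1, …, β_k`) and denominator coefficients `B` (that is `A, B_1, …, B_k`) which starts from the
admissible initial values `x 0, …, x (k - 1)`. -/
structure IsSolution {k : ℕ} (b B : Fin (k + 1) → ℝ) (x : ℕ → ℝ) : Prop where
  init : ∀ n, n < k → 0 ≤ x n
  den_pos : ∀ n, 0 < lin B x n
  step : ∀ n, x (n + k) = lin b x n / lin B x n

/-- The coefficients with index in `S` are positive and all others are zero. -/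
def SupportedOn {k : ℕ} (c : Fin (k + 1) → ℝ) (S : Finset (Fin (k + 1))) : Prop :=
  (∀ i ∈ S, 0 < c i) ∧ ∀ i ∉ S, c i = 0

/-- The special case of `(E_k)` with positive numerator coefficients `S` and positive denominator
coefficients `T` has bounded solutions only. -/
def BoundedOnly (k : ℕ) (S T : Finset (Fin (k + 1))) : Prop :=
  ∀ b B : Fin (k + 1) → ℝ, SupportedOn b S → SupportedOn B T →
    ∀ x : ℕ → ℝ, IsSolution b B x → ∃ M : ℝ, ∀ n, x n ≤ M

/-- The number of special cases of `(E_k)` with bounded solutions only. -/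
noncomputable def numBounded (k : ℕ) : ℕ :=
  Nat.card {p : Finset (Fin (k + 1)) × Finset (Fin (k + 1)) //
    p.1.Nonempty ∧ p.2.Nonempty ∧ BoundedOnly k p.1 p.2}

/-- The number with the binary digits of the set `S`: the sum of `2 ^ i` for `i` in `S`. -/
def mask {k : ℕ} (S : Finset (Fin (k + 1))) : ℕ := ∑ i ∈ S, 2 ^ (i : ℕ)

lemma lin_four (c : Fin 5 → ℝ) (x : ℕ → ℝ) (n : ℕ) : lin (k := 4) c x n = RatRec.lin c x n := by
  simp only [lin, RatRec.lin, Fin.sum_univ_four]
  have e1 : n + 4 - (((0 : Fin 4) : ℕ) + 1) = n + 3 := by simp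
  have e2 : n + 4 - (((1 : Fin 4) : ℕ) + 1) = n + 2 := by simp
  have e3 : n + 4 - (((2 : Fin 4) : ℕ) + 1) = n + 1 := by simp
  have e4 : n + 4 - (((3 : Fin 4) : ℕ) + 1) = n := by simp
  rw [e1, e2, e3, e4]
  have f1 : (0 : Fin 4).succ = 1 := rfl
  have f2 : (1 : Fin 4).succ = 2 := rfl
  have f3 : (2 : Fin 4).succ = 3 := rfl
  have f4 : (3 : Fin 4).succ = 4 := rfl
  rw [f1, f2, f3, f4]
  ring

lemma isSolution_four (b B : Fin 5 → ℝ) (x : ℕ → ℝ) :
    IsSolution (k := 4) b B x ↔ RatRec.IsSolution b B x := by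
  constructor
  · rintro ⟨h1, h2, h3⟩
    refine ⟨h1, fun n => ?_, fun n => ?_⟩
    · rw [← lin_four]
      exact h2 n
    · rw [← lin_four, ← lin_four]
      exact h3 n
  · rintro ⟨h1, h2, h3⟩
    refine ⟨h1, fun n => ?_, fun n => ?_⟩
    · rw [lin_four]
      exact h2 n
    · rw [lin_four, lin_four]
      exact h3 n

/-- The order four. -/
theorem boundedOnly_four (S T : Finset (Fin 5)) :
    BoundedOnly 4 S T ↔ RatRec.BoundedOnly S T := by
  constructor
  · intro h b B hb hB x hx
    exact h b B hb hB x ((isSolution_four b B x).2 hx)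
  · intro h b B hb hB x hx
    exact h b B hb hB x ((isSolution_four b B x).1 hx)

lemma lin_three (c : Fin 4 → ℝ) (x : ℕ → ℝ) (n : ℕ) :
    lin (k := 3) c x n = c 0 + c 1 * x (n + 2) + c 2 * x (n + 1) + c 3 * x n := by
  simp only [lin, Fin.sum_univ_three]
  have e1 : n + 3 - (((0 : Fin 3) : ℕ) + 1) = n + 2 := by simp
  have e2 : n + 3 - (((1 : Fin 3) : ℕ) + 1) = n + 1 := by simp
  have e3 : n + 3 - (((2 : Fin 3) : ℕ) + 1) = n := by simp
  rw [e1, e2, e3]
  have f1 : (0 : Fin 3).succ = 1 := rfl
  have f2 : (1 : Fin 3).succ = 2 := rfl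
  have f3 : (2 : Fin 3).succ = 3 := rfl
  rw [f1, f2, f3]
  ring

/-- The coefficients of the order three as coefficients of the order four. -/
def ext4 (c : Fin 4 → ℝ) : Fin 5 → ℝ := ![c 0, c 1, c 2, c 3, 0]

/-- The coefficients of the order four without the last one. -/
def res3 (c : Fin 5 → ℝ) : Fin 4 → ℝ := ![c 0, c 1, c 2, c 3]

lemma supp_ext4 {c : Fin 4 → ℝ} {S : Finset (Fin 4)} (h : SupportedOn (k := 3) c S) :
    RatRec.SupportedOn (ext4 c) (S.map Fin.castSuccEmb) := by
  have key : ∀ j : Fin 4, ext4 c j.castSucc = c j := by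
    intro j
    fin_cases j <;> rfl
  constructor
  · intro i hi
    rw [Finset.mem_map] at hi
    obtain ⟨j, hj, rfl⟩ := hi
    have := h.1 j hj
    rw [Fin.coe_castSuccEmb, key]
    exact this
  · intro i hi
    induction i using Fin.lastCases with
    | last => rfl
    | cast j =>
      rw [key]
      refine h.2 j fun hj => hi ?_
      rw [Finset.mem_map]
      exact ⟨j, hj, rfl⟩

lemma supp_res3 {c : Fin 5 → ℝ} {S : Finset (Fin 4)}
    (h : RatRec.SupportedOn c (S.map Fin.castSuccEmb)) :
    SupportedOn (k := 3) (res3 c) S ∧ c 4 = 0 := by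
  have key : ∀ j : Fin 4, res3 c j = c j.castSucc := by
    intro j
    fin_cases j <;> rfl
  refine ⟨⟨?_, ?_⟩, ?_⟩
  · intro j hj
    rw [key]
    refine h.1 _ ?_
    rw [Finset.mem_map]
    exact ⟨j, hj, rfl⟩
  · intro j hj
    rw [key]
    refine h.2 _ fun hi => hj ?_
    rw [Finset.mem_map] at hi
    obtain ⟨i, hi, he⟩ := hi
    have : i = j := Fin.castSucc_injective _ he
    rwa [← this]
  · refine h.2 _ fun hi => ?_
    rw [Finset.mem_map] at hi
    obtain ⟨i, hi, he⟩ := hi
    have h1 : ((Fin.castSuccEmb i : Fin 5) : ℕ) = 4 := by rw [he]; rfl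
    have h2 : ((Fin.castSuccEmb i : Fin 5) : ℕ) = i := rfl
    have := i.isLt
    omega

/-- The order three is the order four without the last coefficients. -/
theorem boundedOnly_three (S T : Finset (Fin 4)) :
    BoundedOnly 3 S T ↔
      RatRec.BoundedOnly (S.map Fin.castSuccEmb) (T.map Fin.castSuccEmb) := by
  constructor
  · intro h b B hb hB x hx
    obtain ⟨sb, b4⟩ := supp_res3 hb
    obtain ⟨sB, B4⟩ := supp_res3 hB
    have hl : ∀ c : Fin 5 → ℝ, c 4 = 0 → ∀ n,
        lin (k := 3) (res3 c) (fun m => x (m + 1)) n = RatRec.lin c x n := by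
      intro c hc n
      rw [lin_three]
      simp only [RatRec.lin, res3, hc]
      simp
    obtain ⟨M, hM⟩ := h (res3 b) (res3 B) sb sB (fun m => x (m + 1)) ⟨fun n hn => hx.init _ (by omega),
      fun n => by rw [hl B B4]; exact hx.den_pos n,
      fun n => by rw [hl B B4, hl b b4]; exact hx.step n⟩
    refine ⟨max (x 0) M, fun n => ?_⟩
    rcases Nat.eq_zero_or_pos n with rfl | hn
    · exact le_max_left _ _
    · refine le_trans ?_ (le_max_right _ _)
      have := hM (n - 1)
      rwa [show n - 1 + 1 = n by omega] at this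
  · intro h b B hb hB x hx
    have hl : ∀ c : Fin 4 → ℝ, ∀ n,
        RatRec.lin (ext4 c) (fun m => if m = 0 then 0 else x (m - 1)) n = lin (k := 3) c x n := by
      intro c n
      rw [lin_three]
      simp [RatRec.lin, ext4]
    obtain ⟨M, hM⟩ := h (ext4 b) (ext4 B) (supp_ext4 hb) (supp_ext4 hB)
      (fun m => if m = 0 then 0 else x (m - 1)) ⟨fun n hn => by
        split_ifs with h0
        · exact le_rfl
        · exact hx.init _ (by omega),
      fun n => by rw [hl B]; exact hx.den_pos n,
      fun n => by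
        rw [hl B, hl b]
        simpa using hx.step n⟩
    refine ⟨M, fun n => ?_⟩
    have := hM (n + 1)
    simpa using this

end Pool.Agent.RatRecK
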