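import Pool.Agent.Lib_helper86.RatU.Cert

/-!
Unbounded solutions from a growing periodic itinerary: a region of windows of logarithms which is
mapped into itself by `p` steps, while a form grows by at least one (MP_88c4fb_an).
-/

set_option autoImplicit false

namespace Pool.Agent.RatRec

/-- A certificate for a growing itinerary. -/
structure PCert where
  /-- the numerator mask -/
  S : ℕ
  /-- the denominator mask -/
  T : ℕ
  /-- exponents of the numerator coefficients -/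
  g : List ℤ
  /-- exponents of the denominator coefficients -/
  h : List ℤ
  /-- the period -/
  p : ℕ
  /-- exponents of the initial values -/
  s : List ℤ
  /-- the region: the form is at most the constant, and the coded tree -/
  R : List ((List ℤ × ℤ) × ℕ × ℕ)
  /-- the growing form -/
  f : List ℤ
  /-- the coded tree for the growth -/
  G : ℕ × ℕ

/-- The hypotheses: the region `p` steps ago, and one more inequality. -/
def PCert.hy (c : PCert) (e : List ℤ × ℤ) : List (List ℤ × ℤ) :=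
  e :: c.R.map (fun q => (shf c.p q.1.1, q.1.2))

/-- One tree check. -/
def PCert.tree (c : PCert) (e : List ℤ × ℤ) (t : ℕ × ℕ) : Bool :=
  treeOK c.S c.T c.g c.h (c.p + 4) (c.hy e) (decodeB t.1 t.2)

/-- The check. -/
def PCert.ok (c : PCert) : Bool :=
  !(bits c.S).isEmpty && !(bits c.T).isEmpty &&
    c.R.all (fun q => c.tree (addForm (-1) q.1.1 [], -q.1.2) q.2) &&
    c.tree (addForm (-1) (shf c.p c.f) c.f, 1) c.G &&
    c.R.all (fun q => Nat.ble q.1.1.length 4 && decide (evLo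
      [c.s.getD 3 0, c.s.getD 2 0, c.s.getD 1 0, c.s.getD 0 0]
      [c.s.getD 3 0, c.s.getD 2 0, c.s.getD 1 0, c.s.getD 0 0] q.1.1 0 ≤ q.1.2)) &&
    c.f.all (fun a => decide (0 ≤ a))

theorem PCert.tree_false {c : PCert} (hS : bits c.S ≠ []) (hT : bits c.T ≠ []) {x : ℕ → ℝ}
    (hx : PosSolution (coef c.S c.g) (coef c.T c.h) x) {N : ℕ} (hN : 3 ≤ N)
    (hR : ∀ q ∈ c.R, ev (lb x N) 0 q.1.1 ≤ ((q.1.2 : ℤ) : ℝ)) {e : List ℤ × ℤ} {t : ℕ × ℕ}
    (ht : c.tree e t = true) (he : ev (lb x (N + c.p)) 0 e.1 ≤ ((e.2 : ℤ) : ℝ)) : False := by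
  have hw := awindow_back hx (N := N + c.p) (W := c.p + 4) (by omega)
  have hh : ∀ q ∈ c.hy e, ev (lb x (N + c.p)) 0 q.1 ≤ ((q.2 : ℤ) : ℝ) := by
    intro q hq
    rcases List.mem_cons.mp hq with rfl | hq
    · exact he
    · rw [List.mem_map] at hq
      obtain ⟨r, hr, rfl⟩ := hq
      have h1 := hR r hr
      simp only [shf, ev_replicate_append, zero_add]
      have h2 := ev_lb_shift x (N + c.p) c.p r.1.1 0
      rw [add_zero, Nat.add_sub_cancel] at h2
      rw [h2]
      exact h1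
  exact (chkA_sound hS hT hw (getD_pairs hh) _ [] none ht (by simp)).1 rfl

theorem PCert.step {c : PCert} (hc : c.ok = true) {x : ℕ → ℝ}
    (hx : PosSolution (coef c.S c.g) (coef c.T c.h) x) {N : ℕ} (hN : 3 ≤ N)
    (hR : ∀ q ∈ c.R, ev (lb x N) 0 q.1.1 ≤ ((q.1.2 : ℤ) : ℝ)) :
    (∀ q ∈ c.R, ev (lb x (N + c.p)) 0 q.1.1 ≤ ((q.1.2 : ℤ) : ℝ)) ∧
      ev (lb x N) 0 c.f + 1 ≤ ev (lb x (N + c.p)) 0 c.f := by
  simp only [PCert.ok, Bool.and_eq_true, Bool.not_eq_true', List.isEmpty_eq_false_iff,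
    List.all_eq_true] at hc
  obtain ⟨⟨⟨⟨⟨hS, hT⟩, h1⟩, h2⟩, -⟩, -⟩ := hc
  constructor
  · intro q hq
    by_contra hcon
    refine PCert.tree_false hS hT hx hN hR (h1 q hq) ?_
    simp only [ev_addForm, ev]
    push_cast
    linarith [not_le.mp hcon]
  · by_contra hcon
    refine PCert.tree_false hS hT hx hN hR h2 ?_
    simp only [ev_addForm, shf, ev_replicate_append, zero_add]
    have h3 := ev_lb_shift x (N + c.p) c.p c.f 0
    rw [add_zero, Nat.add_sub_cancel] at h3
    rw [h3]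
    push_cast
    linarith [not_le.mp hcon]

/-- A certificate gives an unbounded solution. -/
theorem PCert.not_boundedOnly {c : PCert} (hc : c.ok = true) :
    ¬ BoundedOnly (fs c.S) (fs c.T) := by
  intro hB
  have hc' := hc
  simp only [PCert.ok, Bool.and_eq_true, Bool.not_eq_true', List.isEmpty_eq_false_iff,
    List.all_eq_true, decide_eq_true_eq, Nat.ble_eq] at hc'
  obtain ⟨⟨⟨⟨⟨hS, hT⟩, -⟩, -⟩, hini⟩, hf⟩ := hc'
  obtain ⟨x, hx, hx', hs⟩ := exists_sol (nonempty_of_bits hS) (nonempty_of_bits hT) c.g c.h c.s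
  have hseg := segOK_start hs
  have key : ∀ k : ℕ, (∀ q ∈ c.R, ev (lb x (3 + k * c.p)) 0 q.1.1 ≤ ((q.1.2 : ℤ) : ℝ)) ∧
      ev (lb x 3) 0 c.f + k ≤ ev (lb x (3 + k * c.p)) 0 c.f := by
    intro k
    induction k with
    | zero =>
      refine ⟨?_, by simp⟩
      intro q hq
      obtain ⟨h1, h2⟩ := hini q hq
      have h3 := (evLo_le hseg q.1.1 0 (by omega)).2
      have h4 : ((evLo [c.s.getD 3 0, c.s.getD 2 0, c.s.getD 1 0, c.s.getD 0 0]
        [c.s.getD 3 0, c.s.getD 2 0, c.s.getD 1 0, c.s.getD 0 0] q.1.1 0 : ℤ) : ℝ) ≤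
          ((q.1.2 : ℤ) : ℝ) := by exact_mod_cast h2
      simpa using h3.trans h4
    | succ k ih =>
      obtain ⟨i1, i2⟩ := ih
      obtain ⟨j1, j2⟩ := PCert.step hc hx (N := 3 + k * c.p) (by omega) i1
      have e : 3 + k * c.p + c.p = 3 + (k + 1) * c.p := by ring
      rw [e] at j1 j2
      refine ⟨j1, ?_⟩
      push_cast
      linarith
  obtain ⟨M, hM⟩ := hB _ _ (coef_supported c.S c.g) (coef_supported c.T c.h) x hx'
  have h5 : (1 : ℝ) < 5 := by norm_num
  set M1 : ℝ := max (Real.logb 5 M) 0 with hM1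
  have hy : ∀ n t, lb x n t ≤ M1 := by
    intro n t
    refine le_trans ?_ (le_max_left _ _)
    simp only [lb]
    exact (Real.logb_le_logb h5 (hx.pos _) (lt_of_lt_of_le (hx.pos _) (hM (n - t)))).mpr
      (hM (n - t))
  have hM0 : 0 ≤ M1 := le_max_right _ _
  obtain ⟨k, hk⟩ := exists_nat_gt (((c.f.sum : ℤ) : ℝ) * M1 - ev (lb x 3) 0 c.f)
  have h1 := (key k).2
  have h2 := ev_le_of_nonneg hM0 (hy (3 + k * c.p)) c.f hf 0
  linarith

end Pool.Agent.RatRec
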